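import Mathlib
import Pool.Agent.Run7.h510.G.Bases

/-!
The bases `a ≥ 2` for which only finitely many `a ^ m - 1` have a primitive prime factor dividing
them exactly once are the integers of a root-closed subgroup of `ℚˣ` which contains none of
`2`, `3`, `432`; in particular at least half of the integers in `[2, x]` are not such bases.
-/

namespace Pool.Agent.Results.MP_222653_nt.HalfOfBases

theorem result :
    (∀ x : ℕ, x ≤ 2 * {a : ℕ | 2 ≤ a ∧ a ≤ x ∧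
      {m : ℕ | 1 ≤ m ∧ ∃ p : ℕ, p.Prime ∧ p ∣ a ^ m - 1 ∧
        (∀ k : ℕ, 1 ≤ k → k < m → ¬ p ∣ a ^ k - 1) ∧ ¬ p ^ 2 ∣ a ^ m - 1}.Infinite}.ncard + 1) ∧
    ∃ B : Subgroup ℚˣ,
      (∀ (x : ℚˣ) (k : ℕ), 0 < k → x ^ k ∈ B → x ∈ B) ∧
      (∀ x ∈ B, (x : ℚ) ≠ 2 ∧ (x : ℚ) ≠ 3 ∧ (x : ℚ) ≠ 432) ∧
      (∀ a : ℕ, 2 ≤ a →
        ({m : ℕ | 1 ≤ m ∧ ∃ p : ℕ, p.Prime ∧ p ∣ a ^ m - 1 ∧
          (∀ k : ℕ, 1 ≤ k → k < m → ¬ p ∣ a ^ k - 1) ∧ ¬ p ^ 2 ∣ a ^ m - 1}.Infinite ↔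
        ∀ x ∈ B, (x : ℚ) ≠ a)) := by
  refine ⟨Run7.h510.G.Bases.half, Run7.h510.G.Bases.B, Run7.h510.G.Bases.B_root, ?_, ?_⟩
  · intro x hx
    rw [Run7.h510.G.Bases.mem_B] at hx
    refine ⟨?_, ?_, ?_⟩
    · intro h
      rw [h] at hx
      exact Run7.h510.G.Bases.not_Ev_two hx
    · intro h
      rw [h] at hx
      exact Run7.h510.G.Bases.not_Ev_three hx
    · intro h
      rw [h] at hx
      exact Run7.h510.G.Bases.not_Ev_432 hx
  · intro a ha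
    have h1 := Run7.h510.G.Bases.Gd_iff ha
    unfold Run7.h510.G.Bases.Gd at h1
    rw [h1]
    constructor
    · intro h x hx hxa
      rw [Run7.h510.G.Bases.mem_B, hxa] at hx
      exact h hx
    · intro h hE
      have ha0 : (a : ℚ) ≠ 0 := by
        have : a ≠ 0 := by omega
        exact_mod_cast this
      exact h (Units.mk0 _ ha0) hE rfl

end Pool.Agent.Results.MP_222653_nt.HalfOfBases
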